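import Pool.Agent.helper76.FP.Spec

set_option autoImplicit false

namespace Pool.Agent.FP

open Finset
open Pool.Agent.FR (mean)
open Pool.Agent.AT (Qk Pair)
open Pool.Agent.HF (Om TC)
open Pool.Agent.DP (Fm PrE CORE2_stmt)

open Classical in
theorem CNX_card (a b m X : ℕ) (S : ℤ → Prop) (ha : 1 ≤ a) (ham : a ≤ m) (hbm : b ≤ m) :
    (univ.filter fun z : Fin X × Fin X => S ((a : ℤ) * ((z.1 : ℕ) : ℤ) - b * ((z.2 : ℕ) : ℤ))).card ≤
      ((Icc (-((m * X : ℕ) : ℤ)) (m * X : ℕ)).filter S).card * X := by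
  have h1 : (((Icc (-((m * X : ℕ) : ℤ)) (m * X : ℕ)).filter S) ×ˢ (univ : Finset (Fin X))).card =
      ((Icc (-((m * X : ℕ) : ℤ)) (m * X : ℕ)).filter S).card * X := by
    rw [Finset.card_product, Finset.card_univ, Fintype.card_fin]
  rw [← h1]
  refine Finset.card_le_card_of_injOn (fun z => ((a : ℤ) * ((z.1 : ℕ) : ℤ) - b * ((z.2 : ℕ) : ℤ), z.2)) ?_ ?_
  · intro z hz
    have hz1 := (Finset.mem_filter.mp (Finset.mem_coe.mp hz)).2
    have h2 : (z.1 : ℕ) ≤ X := z.1.2.le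
    have h3 : (z.2 : ℕ) ≤ X := z.2.2.le
    have h4 : a * (z.1 : ℕ) ≤ m * X := Nat.mul_le_mul ham h2
    have h5 : b * (z.2 : ℕ) ≤ m * X := Nat.mul_le_mul hbm h3
    have h6 : (a : ℤ) * ((z.1 : ℕ) : ℤ) ≤ ((m * X : ℕ) : ℤ) := by exact_mod_cast h4
    have h7 : (b : ℤ) * ((z.2 : ℕ) : ℤ) ≤ ((m * X : ℕ) : ℤ) := by exact_mod_cast h5
    have h8 : (0 : ℤ) ≤ (a : ℤ) * ((z.1 : ℕ) : ℤ) := by positivity
    have h9 : (0 : ℤ) ≤ (b : ℤ) * ((z.2 : ℕ) : ℤ) := by positivity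
    refine Finset.mem_coe.mpr (Finset.mem_product.mpr ⟨Finset.mem_filter.mpr ⟨Finset.mem_Icc.mpr ⟨?_, ?_⟩, hz1⟩, Finset.mem_univ _⟩)
    · simp only
      linarith
    · simp only
      linarith
  · intro z _ z' _ h
    simp only [Prod.mk.injEq] at h
    obtain ⟨h2, h3⟩ := h
    rw [h3] at h2
    have h4 : (a : ℤ) * ((z.1 : ℕ) : ℤ) = (a : ℤ) * ((z'.1 : ℕ) : ℤ) := by linarith
    have h5 : (a : ℤ) ≠ 0 := by
      have h6 : (0 : ℤ) < a := by exact_mod_cast ha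
      exact h6.ne'
    have h6 := mul_left_cancel₀ h5 h4
    have h7 : (z.1 : ℕ) = (z'.1 : ℕ) := by exact_mod_cast h6
    exact Prod.ext (Fin.ext h7) h3

theorem CNX : CNX_stmt := by
  classical
  intro a b m X e₁ S ha hb ham hbm hX he h
  have hm1 : 1 ≤ m := ha.trans ham
  have h1 : (∑ z : Fin X × Fin X, if S ((a : ℤ) * ((z.1 : ℕ) : ℤ) - b * ((z.2 : ℕ) : ℤ)) then (1 : ℝ) else 0) =
      ((univ.filter fun z : Fin X × Fin X => S ((a : ℤ) * ((z.1 : ℕ) : ℤ) - b * ((z.2 : ℕ) : ℤ))).card : ℝ) := by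
    rw [Finset.sum_boole]
  have h2 := CNX_card a b m X S ha ham hbm
  have h3 : ((univ.filter fun z : Fin X × Fin X => S ((a : ℤ) * ((z.1 : ℕ) : ℤ) - b * ((z.2 : ℕ) : ℤ))).card : ℝ) ≤
      (((Icc (-((m * X : ℕ) : ℤ)) (m * X : ℕ)).filter S).card : ℝ) * X := by exact_mod_cast h2
  have hX0 : (0 : ℝ) < X := by exact_mod_cast hX
  have hXR : (1 : ℝ) ≤ X := by exact_mod_cast hX
  have hmR : (1 : ℝ) ≤ m := by exact_mod_cast hm1
  have h4 : (((Icc (-((m * X : ℕ) : ℤ)) (m * X : ℕ)).filter S).card : ℝ) ≤ e₁ * (3 * (m * X)) := by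
    refine le_trans ?_ (mul_le_mul_of_nonneg_left (b := (2 * ((m * X : ℕ) : ℝ) + 1)) ?_ he)
    · exact le_trans (le_of_eq (by congr)) h
    · push_cast
      nlinarith
  unfold Pool.Agent.FR.mean
  rw [h1, Fintype.card_prod, Fintype.card_fin, div_le_iff₀ (by positivity)]
  push_cast
  calc ((univ.filter fun z : Fin X × Fin X => S ((a : ℤ) * ((z.1 : ℕ) : ℤ) - b * ((z.2 : ℕ) : ℤ))).card : ℝ)
      ≤ (((Icc (-((m * X : ℕ) : ℤ)) (m * X : ℕ)).filter S).card : ℝ) * X := h3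
    _ ≤ (e₁ * (3 * (m * X))) * X := mul_le_mul_of_nonneg_right h4 hX0.le
    _ = 3 * m * e₁ * (X * X) := by ring

end Pool.Agent.FP
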